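import Pool.Agent.PQP.StmtsX

set_option autoImplicit false

open scoped InnerProductSpace Topology ContDiff Manifold
open MeasureTheory Filter Set

noncomputable section

namespace Pool.Agent.PQP.H59

open Pool.Agent.Helper42_Paneitz Pool.Agent.Helper82_Vir Pool.Agent.FLX

/-- Euler's identity for the radial extension (degree zero) -/
theorem fderiv_self {g : S4 → ℝ} (hg : Sm g) {y : E5} (hy : y ≠ 0) :
    fderiv ℝ (radialExt g) y y = 0 := by
  have hn := norm_pos_of_ne hy
  have h1 := fderiv_radialExt_smul hg (inv_pos.2 hn) hy y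
  have h2 := dd_self hg ⟨‖y‖⁻¹ • y, normalize_mem hy⟩
  unfold dd at h2
  simp only [map_smul, smul_eq_mul] at h2
  rw [h1, inv_inv] at h2
  have h3 : ‖y‖⁻¹ * (‖y‖ * fderiv ℝ (radialExt g) y y) = fderiv ℝ (radialExt g) y y := by
    field_simp
  linarith [h3, h2]

theorem hess_right {g : S4 → ℝ} (hg : Sm g) (x : S4) (v : E5) :
    hess g x v (x : E5) = - dd g x v := by
  have hx := S4_ne_zero x
  have hd : ContDiffAt ℝ ∞ (fderiv ℝ (radialExt g)) (x : E5) := (hg _ hx).fderiv_right (by simp)
  have h1 : HasFDerivAt (fderiv ℝ (radialExt g)) (fderiv ℝ (fderiv ℝ (radialExt g)) (x : E5))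
      (x : E5) := (hd.differentiableAt (by simp)).hasFDerivAt
  have h2 := h1.clm_apply (hasFDerivAt_id (x : E5))
  have h3 : (fun y : E5 => fderiv ℝ (radialExt g) y (id y)) =ᶠ[𝓝 (x : E5)] fun _ => (0 : ℝ) := by
    filter_upwards [eventually_ne_zero hx] with z hz
    exact fderiv_self hg hz
  have h4 := (h2.congr_of_eventuallyEq h3.symm).unique (hasFDerivAt_const (0 : ℝ) _)
  have h5 := congrArg (fun L => L v) h4
  simp at h5
  unfold hess dd
  linarith

theorem hes : HesStmt := by
  intro g hg x v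
  refine ⟨?_, hess_right hg x v, ?_, ?_⟩
  · rw [hess_symm hg]; exact hess_right hg x v
  · rw [hess_right hg, dd_self hg, neg_zero]
  · unfold sphLaplacian hess
    rw [InnerProductSpace.laplacian_eq_iteratedFDeriv_orthonormalBasis (radialExt g)
      (EuclideanSpace.basisFun (Fin 5) ℝ)]
    simp [iteratedFDeriv_two_apply, ee]

end Pool.Agent.PQP.H59
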