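import Pool.Agent.PQP.StmtsN

set_option autoImplicit false

open scoped InnerProductSpace Topology ContDiff Manifold
open MeasureTheory Filter Set

noncomputable section

namespace Pool.Agent.PQP.H59

open Pool.Agent.Helper42_Paneitz Pool.Agent.Helper82_Vir Pool.Agent.FLX

theorem cont_inner (z : S4) : Continuous fun y : S4 => 1 - ⟪(z : E5), (y : E5)⟫_ℝ := by
  fun_prop

theorem meas_cap (z : S4) (u : ℝ) : MeasurableSet (cap z u) :=
  (isClosed_le (cont_inner z) continuous_const).measurableSet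

theorem one_sub_inner_nonneg (z y : S4) : 0 ≤ 1 - ⟪(z : E5), (y : E5)⟫_ℝ := by
  have h := real_inner_le_norm (z : E5) (y : E5)
  rw [S4_norm, S4_norm] at h
  linarith

theorem GN_nonneg {N : S4} {ρ : ℝ} {f : S4 → ℝ} (hf : Dens f) : 0 ≤ GN N ρ f :=
  integral_nonneg fun x => mul_nonneg (one_sub_inner_nonneg N x) (hf.2.1 x).le

theorem norm_sub_le_two (x y : S4) : ‖(x : E5) - (y : E5)‖ ≤ 2 := by
  have h := norm_sub_le (x : E5) (y : E5)
  rw [S4_norm, S4_norm] at h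
  linarith

theorem lap_bound (hes : HesStmt) {g : S4 → ℝ} {B : ℝ} (hg : Sm g) (hT : T3 B g) (x : S4) :
    |sphLaplacian g x| ≤ 5 * B := by
  rw [(hes g hg x 0).2.2.2]
  refine (Finset.abs_sum_le_sum_abs _ _).trans ?_
  have h1 : ∀ i : Fin 5, |hess g x (ee i) (ee i)| ≤ B := by
    intro i
    have h := hT.2.2 x (ee i) (ee i)
    have h2 : ‖(ee i : E5)‖ = 1 := (EuclideanSpace.basisFun (Fin 5) ℝ).orthonormal.1 i
    rw [h2] at h
    linarith
  calc ∑ i : Fin 5, |hess g x (ee i) (ee i)| ≤ ∑ _i : Fin 5, B := Finset.sum_le_sum fun i _ => h1 i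
    _ = 5 * B := by simp

/-- `t e^(-ct) → 0` -/
theorem exp_small {c δ : ℝ} (hc : 0 < c) (hδ : 0 < δ) :
    ∃ T : ℝ, 0 < T ∧ ∀ t : ℝ, T ≤ t → Real.exp (-(c * t)) ≤ 1 / t ∧ Real.exp (-(c * t)) ≤ δ := by
  have h1 : Tendsto (fun t : ℝ => Real.exp (-(c * t))) atTop (𝓝 0) := by
    refine Real.tendsto_exp_neg_atTop_nhds_zero.comp ?_
    exact tendsto_id.const_mul_atTop hc
  have h2 : Tendsto (fun t : ℝ => t ^ 1 * Real.exp (-c * t)) atTop (𝓝 0) := by
    have h3 := (Real.tendsto_pow_mul_exp_neg_atTop_nhds_zero 1).comp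
      (tendsto_id.const_mul_atTop hc)
    have h4 := h3.const_mul (1 / c)
    rw [mul_zero] at h4
    refine h4.congr fun t => ?_
    simp only [Function.comp_apply, id, pow_one]
    rw [neg_mul]
    field_simp
  have h5 := (h1.eventually_le_const hδ).and ((h2.eventually_le_const one_pos).and
    (eventually_gt_atTop (0 : ℝ)))
  obtain ⟨T, hT⟩ := eventually_atTop.1 h5
  refine ⟨max T 1, by positivity, fun t ht => ?_⟩
  obtain ⟨h6, h7, h8⟩ := hT t ((le_max_left _ _).trans ht)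
  refine ⟨?_, h6⟩
  rw [le_div_iff₀ h8, mul_comm]
  rw [pow_one, neg_mul] at h7
  exact h7

theorem par (spl : SplStmt) (tcf : TcfStmt) (paf : PafStmt) (nrx : NrxStmt) (psn : PsnStmt)
    (hes : HesStmt) : ParStmt := by
  obtain ⟨c4, hc4, nrx⟩ := nrx
  intro ψ N hψ ε₁ c ρ hε₁ hc hρ hρ1
  obtain ⟨_, _, C₀, _, _, _, hC₀, _, hC1, _⟩ := psn ψ N hψ
  have hM : 0 < 2 / ε₁ := by positivity
  obtain ⟨B, hB0, hB⟩ := tcf ψ hψ.1 (2 / ε₁) hM
  refine ⟨4 / 3 * (1 + 2 * C₀ / ε₁), by positivity, ?_⟩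
  intro ε hε
  have hε' : 0 < ε / (4 * (B + 1)) := by positivity
  have hδ : 0 < min 1 (ε / (10 * (c4 * (B + 1)))) := lt_min one_pos (by positivity)
  obtain ⟨T1, hT1, h1⟩ := nrx ψ hψ.1 N ε₁ c B (ε / (4 * (B + 1))) hε₁ hc hB0 hε'
  obtain ⟨T2, hT2, h2⟩ := spl ψ N hψ ε₁ c ρ 1 (2 / ε₁) hε₁ hc hρ hρ1 one_pos hM
  obtain ⟨T3', hT3, h3⟩ := exp_small hc hδ
  refine ⟨max T1 (max T2 T3'), by positivity, ?_⟩
  intro t f w lam ht hb
  have ht1 : T1 ≤ t := (le_max_left _ _).trans ht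
  have ht2 : T2 ≤ t := ((le_max_left _ _).trans (le_max_right _ _)).trans ht
  have ht3 : T3' ≤ t := ((le_max_right _ _).trans (le_max_right _ _)).trans ht
  obtain ⟨hsol, hl0, hl1, hbal, hk, hNw, hmass⟩ := id hb
  have hD : Dens f := hsol.1
  have hG : 0 ≤ GN N ρ f := GN_nonneg hD
  set κ := sq (lam • (w : E5)) with hκ
  have hκ0 : 0 ≤ κ := Real.sqrt_nonneg _
  by_cases hz : gd ψ w = 0
  · rw [hz, norm_zero]
    positivity
  have hn : 0 < ‖gd ψ w‖ := norm_pos_iff.2 hz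
  set e : E5 := ‖gd ψ w‖⁻¹ • gd ψ w with he
  have hen : ‖e‖ = 1 := by
    rw [he, norm_smul, norm_inv, norm_norm, inv_mul_cancel₀ hn.ne']
  have hwe : ⟪(w : E5), e⟫_ℝ = 0 := by
    rw [he, real_inner_smul_right, inner_gd, dd_self hψ.1, mul_zero]
  obtain ⟨a, A, hA, ha, hAn, hcf, hcfx⟩ := paf N w ε₁ hε₁ hNw e hwe
  rw [hen] at ha hAn
  have ha' : ‖a‖ ≤ 2 / ε₁ := ha.trans (by gcongr; norm_num)
  have hA' : ‖A‖ ≤ 2 / ε₁ := by linarith [hAn]
  obtain ⟨hgS, hgT⟩ := hB a A ha' hA'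
  set g : S4 → ℝ := fun x => dd ψ x (cf a A x) with hg
  have hgw : g w = ‖gd ψ w‖ := by
    show dd ψ w (cf a A w) = _
    rw [hcf, he, dd_smul, dd_gd]
    field_simp
  have hN1 := h1 t f w lam ht1 hb g B hgS hgT (fun v => hgT.2.1 w v)
  have hS1 := h2 t f w lam ht2 hb a A hA ha' hA'
  obtain ⟨h3a, h3b⟩ := h3 t ht3
  -- integrals
  have hgc : Continuous g := continuous_of_sm hgS
  have hfc : Continuous f := hD.1
  have hi1 : IntegrableOn (fun x => g x * f x) (cap w (1 / t)) sig :=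
    (integrable_cont (hgc.mul hfc)).integrableOn
  have hi2 : IntegrableOn (fun x => g w * f x) (cap w (1 / t)) sig :=
    (integrable_cont (continuous_const.mul hfc)).integrableOn
  have hsplit : ∫ x in cap w (1 / t), (g x - g w) * f x ∂sig =
      (∫ x in cap w (1 / t), g x * f x ∂sig) - g w * mas f w (1 / t) := by
    unfold mas
    rw [← integral_const_mul, ← integral_sub hi1 hi2]
    congr 1
    funext x
    ring
  have hmas : 3 / 4 ≤ mas f w (1 / t) := by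
    have hm : mas f w (Real.exp (-(c * t))) ≤ mas f w (1 / t) := by
      unfold mas
      refine setIntegral_mono_set (integrable_cont hfc).integrableOn
        (Eventually.of_forall fun x => (hD.2.1 x).le) ?_
      exact (show cap w (Real.exp (-(c * t))) ⊆ cap w (1 / t) from
        fun x hx => le_trans hx h3a).eventuallyLE
    linarith
  -- the part near `N`
  have hnear : |∫ x in cap N ρ, g x * f x ∂sig| ≤ 2 * C₀ / ε₁ * GN N ρ f := by
    have hpt : ∀ x : S4, |g x| ≤ 2 * C₀ / ε₁ * (1 - ⟪(N : E5), (x : E5)⟫_ℝ) := by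
      intro x
      have hx1 := hC1 x (cf a A x)
      have hx2 := hcfx x
      rw [hen] at hx2
      have hx3 := norm_sub_le_two x N
      have hx4 := one_sub_inner_nonneg N x
      calc |g x| ≤ C₀ * ‖(x : E5) - (N : E5)‖ * ‖cf a A x‖ := hx1
        _ ≤ C₀ * 2 * ((1 - ⟪(N : E5), (x : E5)⟫_ℝ) * (1 / ε₁)) := by gcongr
        _ = _ := by ring
    have hi3 : Integrable (fun x : S4 => 2 * C₀ / ε₁ * ((1 - ⟪(N : E5), (x : E5)⟫_ℝ) * f x))
        (sig.restrict (cap N ρ)) :=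
      ((integrable_cont ((cont_inner N).mul hfc)).integrableOn).const_mul _
    calc |∫ x in cap N ρ, g x * f x ∂sig| ≤ ∫ x in cap N ρ, |g x * f x| ∂sig :=
          abs_integral_le_integral_abs
      _ ≤ ∫ x in cap N ρ, 2 * C₀ / ε₁ * ((1 - ⟪(N : E5), (x : E5)⟫_ℝ) * f x) ∂sig := by
          refine integral_mono_of_nonneg (Eventually.of_forall fun x => abs_nonneg _) hi3 ?_
          refine Eventually.of_forall fun x => ?_
          show |g x * f x| ≤ 2 * C₀ / ε₁ * ((1 - ⟪(N : E5), (x : E5)⟫_ℝ) * f x)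
          rw [abs_mul, abs_of_pos (hD.2.1 x), ← mul_assoc]
          exact mul_le_mul_of_nonneg_right (hpt x) (hD.2.1 x).le
      _ = 2 * C₀ / ε₁ * GN N ρ f := by
          unfold GN
          rw [integral_const_mul]
  have hL := lap_bound hes hgS hgT w
  rw [hsplit, hgw] at hN1
  have hS2 : (∫ x in cap w (1 / t), g x * f x ∂sig) ≤ GN N ρ f + 2 * C₀ / ε₁ * GN N ρ f := by
    have e1 := (abs_le.1 hS1).2
    have e2 := (abs_le.1 hnear).1
    have e3 : (∫ x in cap N ρ, dd ψ x (cf a A x) * f x ∂sig) = ∫ x in cap N ρ, g x * f x ∂sig := rfl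
    have e4 : (∫ x in cap w (1 / t), dd ψ x (cf a A x) * f x ∂sig) =
      ∫ x in cap w (1 / t), g x * f x ∂sig := rfl
    rw [e3, e4] at e1
    linarith
  have hN2 := (abs_le.1 hN1).1
  -- kappa is small
  have hk1 : κ ≤ 1 := hk.trans (h3b.trans (min_le_left _ _))
  have hk2 : κ ≤ ε / (10 * (c4 * (B + 1))) := hk.trans (h3b.trans (min_le_right _ _))
  have hb1 : 0 < B + 1 := by linarith
  have q1 : c4 / 2 * κ ^ 2 * (5 * B) ≤ ε / 4 * κ := by
    have e1 : c4 * (B + 1) * κ ≤ ε / 10 := by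
      calc c4 * (B + 1) * κ ≤ c4 * (B + 1) * (ε / (10 * (c4 * (B + 1)))) := by gcongr
        _ = ε / 10 := by field_simp
    have e2 : c4 * B * κ ≤ ε / 10 := by
      have : c4 * B * κ ≤ c4 * (B + 1) * κ := by gcongr; linarith
      linarith
    calc c4 / 2 * κ ^ 2 * (5 * B) = 5 / 2 * κ * (c4 * B * κ) := by ring
      _ ≤ 5 / 2 * κ * (ε / 10) := by gcongr
      _ = ε / 4 * κ := by ring
  have q2 : ε / (4 * (B + 1)) * (B * κ + κ ^ 2) ≤ ε / 4 * κ := by
    have e1 : B * κ + κ ^ 2 ≤ (B + 1) * κ := by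
      have e0 : κ * κ ≤ 1 * κ := mul_le_mul_of_nonneg_right hk1 hκ0
      rw [pow_two]; linarith
    calc ε / (4 * (B + 1)) * (B * κ + κ ^ 2) ≤ ε / (4 * (B + 1)) * ((B + 1) * κ) := by gcongr
      _ = ε / 4 * κ := by field_simp
  have q3 : -(c4 / 2 * κ ^ 2 * (5 * B)) ≤ c4 / 2 * κ ^ 2 * sphLaplacian g w := by
    have e1 := (abs_le.1 hL).1
    have e2 : 0 ≤ c4 / 2 * κ ^ 2 := by positivity
    have e3 := mul_le_mul_of_nonneg_left e1 e2
    linarith
  have q4 : ‖gd ψ w‖ * (3 / 4) ≤ ‖gd ψ w‖ * mas f w (1 / t) := by gcongr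
  have q5 : 0 ≤ ε * κ := by positivity
  have q6 : 4 / 3 * (1 + 2 * C₀ / ε₁) * GN N ρ f =
      4 / 3 * (GN N ρ f + 2 * C₀ / ε₁ * GN N ρ f) := by ring
  rw [q6]
  linarith

end Pool.Agent.PQP.H59
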